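import Mathlib
import Pool.Agent.TH167.SH.Defs
import Pool.Agent.R355.ConeAct
import Pool.Agent.K6.H90.ST.Pos

set_option autoImplicit false

/-!
# The largest multiplicity of a negative curve is at most cubic in the degree minus it

Let `X` be the blow-up of the complex projective plane at very general points, `C` an irreducible
curve of negative self-intersection, `C = d H - ∑ w i E i`, `i0` one of the points, `M = w i0` and
`B = d - M`, the degree of the projection of `C` from the point `i0`. Suppose that `w i ≤ B` and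
`w i + w j ≤ B` for all `i ≠ j` different from `i0`. (By quadratic transformations every negative
curve which is not a `(-1)`-curve can be made so, with `M` the largest multiplicity.) There is no
condition on the number or the size of the other multiplicities. Let `r` be the number of the
distinct nonzero multiplicities `w i`, `i ≠ i0`. Then

* `4 M < (min (r, B / 2) + 1) (3 B ^ 2 + 4 B)`, in particular `8 M < B (B + 2) (3 B + 4)`;
* if `4 M ≥ 6 B ^ 2 + 8 B` then `- C ^ 2 (4 M - 6 B ^ 2 - 8 B) ^ 2 ≤ B ^ 4 (3 B + 4) ^ 2`.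

**Nef classes.** Let `B ≥ 2`, let `u i`, `i ≠ i0`, be any nonnegative integers with `u i < B` and
`u i + u j ≤ B`, and let `M` be a real number such that the class `(M + B) H - M E i0 - ∑ u i E i` has
the self-intersection `κ = 2 M B + B ^ 2 - ∑ u i ^ 2`, a nonnegative integer. Let `r` be the number of
the distinct nonzero `u i`. If `(min (r + min (κ, 1), B / 2) + 1) (3 B ^ 2 + 4 B) ≤ 4 M` then the
class is nef.

Proof. The monomials of degree at most `d` and of order at least `M` at a point form a trapezoid of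
height `B`, which is cut into triangles of height `B`. For `t ≤ B / 2` a triangle of the area
`N t ^ 2 / 2` (in units) and of arbitrary slopes is good for `N` points of multiplicity `t` if `B`
divides `N`: for the height `B` and also for the height `B / 2`. Triangles of arbitrary slopes can be
put side by side, so unions of such blocks are good too. For every `t` fewer than `B` points of
multiplicity `t` are left over; they are put into the corner of a triangle of height `B / 2`, together
with a sufficiently large union of blocks, and this triangle is a degeneration of a triangle of height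
`B`. The areas fit exactly. A multiplicity greater than `B / 2` is removed by a quadratic
transformation with base points `i0`, this point and a further point of multiplicity zero. This gives
the nef classes with `κ = 0`; for `κ > 0` one adds `κ` very general points of multiplicity one. The
class `(M' + B) H - M' E i0 - ∑ w i E i` of self-intersection zero has a negative intersection number
with `C`.
-/

namespace Pool.Agent.Results.MP_d3e5c7_ag.CubicBound

open Pool.Agent.TH167.SHDefs
open Pool.Agent.K6.H90.ST (small)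
open Pool.Agent.R355.ConeAct (curvCone)

theorem result (n : ℕ) :
    ∃ Z : ℕ → MvPolynomial (Fin n × Fin 2) ℂ, (∀ k, Z k ≠ 0) ∧
      ∀ p : Fin n → Fin 2 → ℂ,
        (∀ k, MvPolynomial.eval (fun ij : Fin n × Fin 2 => p ij.1 ij.2) (Z k) ≠ 0) →
        ∀ (i0 : Fin n) (B : ℕ),
          -- negative curves
          (∀ (w : Fin n → ℕ) (C : MvPolynomial (Fin 3) ℂ),
            Curve p C (w i0 + B) w → inter (w i0 + B) w (w i0 + B) w < 0 →
            (∀ i, i ≠ i0 → w i ≤ B) →
            (∀ i j, i ≠ i0 → j ≠ i0 → i ≠ j → w i + w j ≤ B) →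
            4 * w i0 < (min (small i0 w B) (B / 2) + 1) * (3 * B ^ 2 + 4 * B) ∧
            8 * w i0 < B * (B + 2) * (3 * B + 4) ∧
            (6 * B ^ 2 + 8 * B ≤ 4 * w i0 →
              -inter (w i0 + B) w (w i0 + B) w * (4 * (w i0 : ℤ) - 6 * (B : ℤ) ^ 2 - 8 * B) ^ 2 ≤
                (B : ℤ) ^ 4 * (3 * B + 4) ^ 2)) ∧
          -- nef classes
          ∀ (u : Fin n → ℕ) (κ : ℕ) (M : ℝ), 2 ≤ B →
            (∀ i, i ≠ i0 → u i < B) →
            (∀ i j, i ≠ i0 → j ≠ i0 → i ≠ j → u i + u j ≤ B) →
            ∑ i ∈ Finset.univ.erase i0, (u i : ℝ) ^ 2 + (κ : ℝ) = 2 * M * B + (B : ℝ) ^ 2 →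
            (((min (small i0 u B + min κ 1) (B / 2) : ℕ) : ℝ) + 1) * (3 * (B : ℝ) ^ 2 + 4 * B) ≤
              4 * M →
            ∀ z ∈ curvCone p,
              M * z.2 i0 + ∑ i ∈ Finset.univ.erase i0, (u i : ℝ) * z.2 i ≤ (M + B) * z.1 := by
  obtain ⟨f, hf, h1⟩ := Pool.Agent.TH167.SH.exists_fam (Fin n × Fin 2)
  refine ⟨f, hf, fun p hp i0 B => ?_⟩
  have hP := (h1 fun q => p q.1 q.2).1 hp
  refine ⟨fun w C hC hneg hw1 hw2 => ?_, fun u κ M hB hu1 hu2 hsum hroom z hz =>
    Pool.Agent.K6.H90.ST.nef_pos hP hB hu1 hu2 hsum hroom z hz⟩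
  have e1 : ∑ i, (w i : ℤ) * w i = ((∑ i, w i ^ 2 : ℕ) : ℤ) := by
    push_cast
    exact Finset.sum_congr rfl fun i _ => by ring
  have e2 : inter (w i0 + B) w (w i0 + B) w =
      (((w i0 + B) ^ 2 : ℕ) : ℤ) - ((∑ i, w i ^ 2 : ℕ) : ℤ) := by
    unfold inter
    rw [e1]
    push_cast
    ring
  rw [e2] at hneg ⊢
  have h4 : (w i0 + B) ^ 2 < ∑ i, w i ^ 2 := by
    have h5 : (((w i0 + B) ^ 2 : ℕ) : ℤ) < ((∑ i, w i ^ 2 : ℕ) : ℤ) := by linarith
    exact_mod_cast h5
  obtain ⟨κ, hκ⟩ : ∃ κ, ∑ i, w i ^ 2 = (w i0 + B) ^ 2 + κ :=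
    ⟨∑ i, w i ^ 2 - (w i0 + B) ^ 2, by omega⟩
  have hκ1 : 1 ≤ κ := by omega
  have e3 : -((((w i0 + B) ^ 2 : ℕ) : ℤ) - ((∑ i, w i ^ 2 : ℕ) : ℤ)) = (κ : ℤ) := by
    rw [hκ]
    push_cast
    ring
  rw [e3]
  have h6 := Pool.Agent.K6.H90.ST.neg_int hP hC h4 hw1 hw2
  refine ⟨h6, ?_, fun h7 => ?_⟩
  · have h8 : min (Pool.Agent.K6.H90.ST.small i0 w B) (B / 2) ≤ B / 2 := min_le_right _ _
    have h9 : 2 * (min (Pool.Agent.K6.H90.ST.small i0 w B) (B / 2) + 1) ≤ B + 2 := by omega
    have h10 : 2 * (min (Pool.Agent.K6.H90.ST.small i0 w B) (B / 2) + 1) * (3 * B ^ 2 + 4 * B) ≤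
        (B + 2) * (3 * B ^ 2 + 4 * B) := Nat.mul_le_mul_right _ h9
    have e5 : (B + 2) * (3 * B ^ 2 + 4 * B) = B * (B + 2) * (3 * B + 4) := by ring
    have e6 : 2 * (min (Pool.Agent.K6.H90.ST.small i0 w B) (B / 2) + 1) * (3 * B ^ 2 + 4 * B) =
      2 * ((min (Pool.Agent.K6.H90.ST.small i0 w B) (B / 2) + 1) * (3 * B ^ 2 + 4 * B)) := by ring
    omega
  · have := Pool.Agent.K6.H90.ST.neg_int_sq hP hC hκ1 hκ hw1 hw2 h7
    exact_mod_cast this

end Pool.Agent.Results.MP_d3e5c7_ag.CubicBound
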