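import Mathlib
import Pool.Agent.K6.H96.TM.Every3

set_option autoImplicit false

/-!
# Negative curves: any number of arbitrary multiplicities

Let `P 0, …, P (r + 9)` be very general points of the complex projective plane and let `C` be an
irreducible curve of degree `d` with `C ^ 2 < 0` on the blow-up which is not a `(-1)`-curve. Let
`v 0 ≥ v 1 ≥ ⋯` be its multiplicities in decreasing order.

(1) Let `m ≥ 1` be an integer, `N` the number of the `i ≥ 9` with `v i ≥ m`, `N + 9 ≤ t ^ 2` and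
`D = max (v 0 + v 1 + v 2, v 0 + 2 ^ 16 m, v 1 + v 2 + v 7 + 2 ^ 16 m)`. If `2 ^ 18 t m ^ 2 ≤ d` then
`d ^ 2 < D ^ 2 + ∑_{i ≥ 9, v i ≥ m} v i ^ 2 + (11 v 9 + 2 ^ 16 t m) d`.

(2) For every `K ≥ 3` with `K ^ 2 < r + 10`, with `m = v (K ^ 2) + 1` and
`S = ∑_{3 ≤ k < K} (v (k ^ 2) + 2 ^ 13 m)`, the degree is less than
`max (v 0 + v 1 + v 2, v 0 + 2 ^ 16 m, v 1 + v 2 + v 7 + 2 ^ 16 m) + S` or less than
`S + 2 ^ 18 (K - 1) (K - 2) m ^ 2`.

The number of multiplicities which are arbitrary (the first `N + 9`, or the first `K ^ 2`) is not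
bounded. Proof: for such systems the expected dimension is known (`Pool.Agent.K6.H83.HN`, helper83),
whereas a negative curve which is not a `(-1)`-curve has `χ ≤ 0`: this follows from the standard form
of its class (`Pool.Agent.K6.H96.TM.Fin`).
-/

namespace Pool.Agent.Results.MP_d3e5c7_ag.LargeMultiplicitiesFill

open MvPolynomial Pool.Agent.TH167.SHDefs

/-- The multiplicity number `k`, and `0` from the number of points on. -/
def mult {n : ℕ} (v : Fin n → ℕ) (k : ℕ) : ℕ := if h : k < n then v ⟨k, h⟩ else 0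

/-- The points `P` are very general: off the zeros of the polynomials `Z r n`. -/
def VG (Z : (r : ℕ) → ℕ → MvPolynomial (Fin (r + 10) × Fin 2) ℂ) {r : ℕ}
    (P : Fin (r + 10) → Fin 2 → ℂ) : Prop :=
  ∀ n, MvPolynomial.eval (fun ij : Fin (r + 10) × Fin 2 => P ij.1 ij.2) (Z r n) ≠ 0

theorem curve_perm {n d : ℕ} {P : Fin n → Fin 2 → ℂ} {C : MvPolynomial (Fin 3) ℂ}
    {w : Fin n → ℕ} (σ : Equiv.Perm (Fin n)) (h : Curve P C d w) : Curve (P ∘ σ) C d (w ∘ σ) :=
  ⟨h.irreducible, h.homogeneous, fun i => h.mult (σ i)⟩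

theorem inter_perm {n d : ℕ} {w : Fin n → ℕ} (σ : Equiv.Perm (Fin n)) :
    inter d (w ∘ σ) d (w ∘ σ) = inter d w d w := by
  unfold inter
  exact congrArg _ (Equiv.sum_comp σ fun j => (w j : ℤ) * w j)

theorem interK_perm {n d : ℕ} {w : Fin n → ℕ} (σ : Equiv.Perm (Fin n)) :
    interK d (w ∘ σ) = interK d w := by
  unfold interK
  exact congrArg _ (Equiv.sum_comp σ fun j => (w j : ℤ))

theorem result :
    ∃ Z : (r : ℕ) → ℕ → MvPolynomial (Fin (r + 10) × Fin 2) ℂ, (∀ r n, Z r n ≠ 0) ∧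
      ∀ (r : ℕ) (P : Fin (r + 10) → Fin 2 → ℂ), VG Z P →
        ∀ (d : ℕ) (w : Fin (r + 10) → ℕ) (C : MvPolynomial (Fin 3) ℂ),
          Curve P C d w → inter d w d w < 0 → ¬ MinusOne P C d w →
          -- the multiplicities in decreasing order
          ∀ (σ : Equiv.Perm (Fin (r + 10))) (v : Fin (r + 10) → ℕ), v = w ∘ σ → Antitone v →
          -- (1)
          (∀ m N t D : ℕ, 1 ≤ m →
            N = (Finset.univ.filter fun i : Fin (r + 10) => 9 ≤ (i : ℕ) ∧ m ≤ v i).card →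
            N + 9 ≤ t ^ 2 →
            D = max (v 0 + v 1 + v 2) (max (v 0) (v 1 + v 2 + v 7) + 2 ^ 16 * m) →
            d < 2 ^ 18 * t * m ^ 2 ∨
            d ^ 2 < D ^ 2 + (∑ i ∈ Finset.univ.filter fun i : Fin (r + 10) =>
                9 ≤ (i : ℕ) ∧ m ≤ v i, v i ^ 2) + (11 * v 9 + 2 ^ 16 * t * m) * d) ∧
          -- (2)
          (∀ K m S : ℕ, 3 ≤ K → K ^ 2 < r + 10 → m = mult v (K ^ 2) + 1 →
            S = ∑ k ∈ Finset.Ico 3 K, (mult v (k ^ 2) + 2 ^ 13 * m) →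
            d < max (v 0 + v 1 + v 2) (max (v 0) (v 1 + v 2 + v 7) + 2 ^ 16 * m) + S ∨
            d < S + 2 ^ 18 * ((K - 1) * (K - 2)) * m ^ 2) := by
  choose Z hZ h using fun r : ℕ => Pool.Agent.TH167.SH.exists_fam (Fin (r + 10) × Fin 2)
  refine ⟨Z, hZ, fun r P hP d w C hC hneg hne σ v hvw hv => ?_⟩
  have hP1 : AlgebraicIndependent ℚ (fun ij : Fin (r + 10) × Fin 2 => P ij.1 ij.2) :=
    (h r _).1 hP
  have hP' : AlgebraicIndependent ℚ (fun ij : Fin (r + 10) × Fin 2 => (P ∘ σ) ij.1 ij.2) := by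
    have := hP1.comp (fun ij : Fin (r + 10) × Fin 2 => (σ ij.1, ij.2)) (fun a b hab => by
      rw [Prod.mk.injEq] at hab
      exact Prod.ext (σ.injective hab.1) hab.2)
    exact this
  have hC' : Curve (P ∘ σ) C d v := by
    rw [hvw]
    exact curve_perm σ hC
  have hneg' : inter d v d v < 0 := by
    rw [hvw, inter_perm]
    exact hneg
  have hne' : ¬ MinusOne (P ∘ σ) C d v := by
    intro h0
    have h1 := h0.self
    have h2 := h0.canonical
    rw [hvw, inter_perm] at h1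
    rw [hvw, interK_perm] at h2
    exact hne ⟨hC, h1, h2⟩
  refine ⟨fun m N t D hm hN ht hD => ?_, fun K m S hK hKn hm hS => ?_⟩
  · rw [hD]
    exact Pool.Agent.K6.H96.TM.area_neg hP' hC' hneg' hne' hv hm hN ht
  · obtain ⟨J, hJ⟩ : ∃ J, (K - 1) * (K - 2) = 2 * J := by
      obtain ⟨L, rfl⟩ : ∃ L, K = L + 3 := ⟨K - 3, by omega⟩
      have h5 : L + 3 - 1 = L + 2 := rfl
      have h6 : L + 3 - 2 = L + 1 := rfl
      rw [h5, h6]
      rcases Nat.even_or_odd L with ⟨j, hj⟩ | ⟨j, hj⟩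
      · exact ⟨(j + 1) * (L + 1), by rw [show L + 2 = 2 * (j + 1) by omega]; ring⟩
      · exact ⟨(L + 2) * (j + 1), by rw [show L + 1 = 2 * (j + 1) by omega]; ring⟩
    have h1 := Pool.Agent.K6.H96.TM.squares_neg hP' hC' hneg' hne' hv hK hKn hm hS hJ.symm
    rcases h1 with h1 | h1
    · exact Or.inl h1
    · right
      rw [hJ]
      calc d < S + 2 ^ 19 * J * m ^ 2 := h1
        _ = S + 2 ^ 18 * (2 * J) * m ^ 2 := by ring

end Pool.Agent.Results.MP_d3e5c7_ag.LargeMultiplicitiesFill
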