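import Mathlib
import Pool.Agent.TH167.SH.Defs
import Pool.Agent.R355.ConeAct
import Pool.Agent.K6.H90.ST.Neg

set_option autoImplicit false

/-!
# Negative curves have many large multiplicities

Let `X` be the blow-up of the complex projective plane at very general points.

**Nef classes.** Let `c H - ∑ x i E i` be a class of self-intersection zero with real coefficients
`x i ≥ 0`, `i0` one of the points and `h = c - x i0`. The class is nef if

* `x i ≤ h` and `x i + x j ≤ h` for all `i ≠ j` different from `i0`, and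
* for some `W > 0` with `16 W ≤ h` one has `2 (k + 1) h ^ 2 + 16 r W ^ 2 ≤ x i0 h`, where `k` is the
  number of the further coefficients greater than `W` and `r` the number of the DISTINCT nonzero
  further coefficients at most `W`.

So besides `x i0` there are `k` arbitrary real coefficients, pairwise different and as large as `h`;
`k` is of the order of `x i0 / h` and not bounded.

**Negative curves.** Let `C` be an irreducible curve of negative self-intersection,
`C = d H - ∑ w i E i`, `M = w i0` and `B = d - M`. Suppose that `w i + w j + M ≤ d` for all `i ≠ j`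
different from `i0`, and `w i + M ≤ d`. (By quadratic transformations every negative curve which is
not a `(-1)`-curve can be made so, with `M` the largest multiplicity.) Let `μ ≥ 1` be an integer with
`16 μ ≤ B`, let `k` be the number of the other multiplicities greater than `μ` and `r` the number of
the distinct nonzero multiplicities at most `μ` among them. Then

* `M B < 2 (k + 1) B ^ 2 + 16 r μ ^ 2`;
* if `2 (k + 1) B ^ 2 + 16 μ ^ 2 ≤ M B` then
  `- C ^ 2 (M B - 2 (k + 1) B ^ 2 - 16 μ ^ 2) ^ 2 ≤ 256 μ ^ 6`;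
* hence `M B ≤ 2 (k + 1) B ^ 2 + 16 μ ^ 2 (μ + 1)`: apart from `M` there are at least
  `M / (2 B) - 1 - 8 μ ^ 2 (μ + 1) / B ^ 2` multiplicities greater than `μ`, for every `μ ≤ B / 16`.

(All multiplicities but `M` are at most `B`, and the sum of their squares is `B (2 M + B) - C ^ 2`.)

Proof. The monomials of degree at most `d` and of order at least `M` at a point form a trapezoid of
height `B`. It is cut into triangles of the height `B`; every triangle contains one of the `k` points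
with an arbitrary multiplicity at most `B / 2` and a batch of points of small multiplicity, and the
areas fit exactly. If one of the multiplicities is greater than `B / 2`, a quadratic transformation
with base points `i0`, this point and a further point of multiplicity zero turns the trapezoid into a
rectangle. This gives the nef classes. The class `(M' + B) H - M' E i0 - ∑ w i E i` of
self-intersection zero has the intersection number `C ^ 2 / 2 < 0` with `C`.
-/

namespace Pool.Agent.Results.MP_d3e5c7_ag.ManyLargeMultiplicities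

open Pool.Agent.TH167.SHDefs
open Pool.Agent.K6.H90.ST (StripClass big small)
open Pool.Agent.R355.ConeAct (curvCone)

theorem result (n : ℕ) :
    ∃ Z : ℕ → MvPolynomial (Fin n × Fin 2) ℂ, (∀ k, Z k ≠ 0) ∧
      ∀ p : Fin n → Fin 2 → ℂ,
        (∀ k, MvPolynomial.eval (fun ij : Fin n × Fin 2 => p ij.1 ij.2) (Z k) ≠ 0) →
        ∀ i0 : Fin n,
          -- nef classes
          (∀ (x : Fin n → ℝ) (c : ℝ), (∀ i, 0 ≤ x i) → ∑ i, x i ^ 2 = c ^ 2 →
            StripClass i0 x c → ∀ z ∈ curvCone p, ∑ i, x i * z.2 i ≤ c * z.1) ∧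
          -- negative curves
          ∀ (d : ℕ) (w : Fin n → ℕ) (C : MvPolynomial (Fin 3) ℂ),
          Curve p C d w → inter d w d w < 0 →
          (∀ i, i ≠ i0 → w i + w i0 ≤ d) →
          (∀ i j, i ≠ i0 → j ≠ i0 → i ≠ j → w i + w j + w i0 ≤ d) →
          ∀ μ : ℕ, 1 ≤ μ → w i0 + 16 * μ ≤ d →
            (w i0 : ℤ) * (d - w i0) < 2 * ((big i0 w μ : ℤ) + 1) * (d - w i0) ^ 2 +
              16 * (small i0 w μ : ℤ) * (μ : ℤ) ^ 2 ∧
            (2 * ((big i0 w μ : ℤ) + 1) * (d - w i0) ^ 2 + 16 * (μ : ℤ) ^ 2 ≤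
                (w i0 : ℤ) * (d - w i0) →
              -inter d w d w * ((w i0 : ℤ) * (d - w i0) -
                2 * ((big i0 w μ : ℤ) + 1) * (d - w i0) ^ 2 - 16 * (μ : ℤ) ^ 2) ^ 2 ≤
                  256 * (μ : ℤ) ^ 6) ∧
            (w i0 : ℤ) * (d - w i0) ≤ 2 * ((big i0 w μ : ℤ) + 1) * (d - w i0) ^ 2 +
              16 * (μ : ℤ) ^ 2 * (μ + 1) := by
  obtain ⟨f, hf, h1⟩ := Pool.Agent.TH167.SH.exists_fam (Fin n × Fin 2)
  refine ⟨f, hf, fun p hp i0 => ?_⟩
  have hP := (h1 fun q => p q.1 q.2).1 hp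
  refine ⟨fun x c hx hsq hS z hz => ?_, fun d w C hC hneg hw1 hw2 μ hμ hb => ?_⟩
  · have h2 := Pool.Agent.R355.ConeAct.nef_of_gen
      (Pool.Agent.K6.H90.ST.curves_all hP hx hsq hS) z hz
    unfold Pool.Agent.R355.ConeAct.dot at h2
    simp only at h2
    linarith
  have e1 : ∑ i, (w i : ℤ) * w i = ((∑ i, w i ^ 2 : ℕ) : ℤ) := by
    push_cast
    exact Finset.sum_congr rfl fun i _ => by ring
  have e2 : inter d w d w = (d : ℤ) ^ 2 - ((∑ i, w i ^ 2 : ℕ) : ℤ) := by
    unfold inter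
    rw [e1]
    ring
  rw [e2] at hneg ⊢
  have h4 : d ^ 2 < ∑ i, w i ^ 2 := by
    have h5 : ((d ^ 2 : ℕ) : ℤ) < ((∑ i, w i ^ 2 : ℕ) : ℤ) := by
      push_cast at hneg ⊢
      linarith
    exact_mod_cast h5
  obtain ⟨κ, hκ⟩ : ∃ κ, ∑ i, w i ^ 2 = d ^ 2 + κ := ⟨∑ i, w i ^ 2 - d ^ 2, by omega⟩
  have hκ1 : 1 ≤ κ := by omega
  have e3 : -((d : ℤ) ^ 2 - ((∑ i, w i ^ 2 : ℕ) : ℤ)) = (κ : ℤ) := by
    rw [hκ]
    push_cast
    ring
  rw [e3]
  have hmid : 2 * ((big i0 w μ : ℤ) + 1) * (d - w i0) ^ 2 + 16 * (μ : ℤ) ^ 2 ≤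
      (w i0 : ℤ) * (d - w i0) → (κ : ℤ) * ((w i0 : ℤ) * (d - w i0) -
        2 * ((big i0 w μ : ℤ) + 1) * (d - w i0) ^ 2 - 16 * (μ : ℤ) ^ 2) ^ 2 ≤
          256 * (μ : ℤ) ^ 6 := by
    intro hD
    have hDR : 2 * ((big i0 w μ : ℝ) + 1) * (d - w i0) ^ 2 +
        16 * (μ : ℝ) ^ 2 ≤ (w i0 : ℝ) * (d - w i0) := by exact_mod_cast hD
    have := Pool.Agent.K6.H90.ST.neg_cor hP hC (κ := κ) hκ1 hκ hw1 hw2 hμ hb hDR
    exact_mod_cast this
  refine ⟨?_, hmid, ?_⟩
  · have := Pool.Agent.K6.H90.ST.neg_main hP hC h4 hw1 hw2 hμ hb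
    exact_mod_cast this
  · obtain ⟨D, hDd⟩ : ∃ D : ℤ, D = (w i0 : ℤ) * (d - w i0) -
      2 * ((big i0 w μ : ℤ) + 1) * (d - w i0) ^ 2 - 16 * (μ : ℤ) ^ 2 := ⟨_, rfl⟩
    have hD3 : D ≤ 16 * (μ : ℤ) ^ 3 := by
      by_contra hcon
      push Not at hcon
      have hμ0 : (0 : ℤ) ≤ 16 * (μ : ℤ) ^ 3 := by positivity
      have h5 := hmid (by linarith)
      rw [← hDd] at h5
      have h6 : (16 * (μ : ℤ) ^ 3) ^ 2 < D ^ 2 := pow_lt_pow_left₀ hcon hμ0 two_ne_zero
      have h7 : (1 : ℤ) * D ^ 2 ≤ κ * D ^ 2 :=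
        mul_le_mul_of_nonneg_right (by exact_mod_cast hκ1) (sq_nonneg D)
      have e4 : (16 * (μ : ℤ) ^ 3) ^ 2 = 256 * (μ : ℤ) ^ 6 := by ring
      linarith
    have e5 : 16 * (μ : ℤ) ^ 2 * (μ + 1) = 16 * (μ : ℤ) ^ 3 + 16 * (μ : ℤ) ^ 2 := by ring
    rw [e5]
    linarith

end Pool.Agent.Results.MP_d3e5c7_ag.ManyLargeMultiplicities
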