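import Mathlib
import Pool.Agent.K6.H96.TM.FinU

set_option autoImplicit false

/-!
# Negative curves: nine arbitrary multiplicities

Let `P 0, …, P (r + 9)` be very general points of the complex projective plane and let `C` be an
irreducible curve with `C ^ 2 < 0` on the blow-up which is not a `(-1)`-curve. Quadratic
transformations carry its class to a standard class `d H - ∑ v i E i`, `v 0 ≥ v 1 ≥ ⋯`,
`v 0 + v 1 + v 2 ≤ d`, of a curve of the same kind at other very general points. Let `m = v 9 + 1`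
(nine multiplicities are arbitrary, the others are less than `m`), let `x = 3 d - (v 0 + ⋯ + v 8)`
and `D = d ^ 2 - (v 0 ^ 2 + ⋯ + v 8 ^ 2)`. Then

* `d < 2 ^ 19 m ^ 2`, or `d < 2 ^ 40 m`, or `d < v 0 + 2 ^ 16 m` and `d < 2 ^ 61 m ^ 3`, or the class
  is near to a multiple of the anticanonical class of the first nine points: `1 ≤ x < 2 ^ 27 m ^ 2`,
  `v 0 < v 8 + 2 ^ 28 m ^ 2`, `d < v 1 + v 2 + v 7 + 2 ^ 16 m`, and there are more than
  `2 (v 8) x / (v 9) ^ 2` further points;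
* if `max (v 0, v 1 + v 2 + v 7) + 2 ^ 16 m ≤ d` then the sum of the multiplicities after the ninth
  plus `K C - C ^ 2` is less than `2 ^ 32 m ^ 2 + 2`;
* in any case `x ≥ 1`, `2 v 8 x ≤ D ≤ 2 v 8 x + x ^ 2`, `D < ∑_{i ≥ 9} v i ^ 2`,
  `6 #{i ≥ 9 : v i ≥ 2} + 2 #{i ≥ 9 : v i = 1} ≤ D + x`, and
  `∑_{i ≥ 9} (v i - 2 max (v i - 2, 0)) < x`.

Hence for every `μ` there are, for all numbers of points together, only finitely many standard
classes of such curves with tenth multiplicity at most `μ` which are not near to a multiple of the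
anticanonical class of nine points; and for every `μ` and every fixed number of points there are
only finitely many with tenth multiplicity at most `μ` at all.

Proof: for systems with nine arbitrary multiplicities the expected dimension is now known
(`Pool.Agent.K6.H83.HN`, helper83 with helper5 and helper72) outside of a neighbourhood of the
multiples of the anticanonical class, for degrees as above; the further numbers come from the bound
for the superabundance of irreducible curves and the theorem on systems with at most nine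
multiplicities larger than two (starting files).
-/

namespace Pool.Agent.Results.MP_d3e5c7_ag.TenthMultiplicity

open MvPolynomial Pool.Agent.TH167.SHDefs Pool.Agent.K6.H96.TM

/-- `C` is an irreducible curve of degree `d` with multiplicities `v i` at the points `P i`, with
negative self-intersection, not a `(-1)`-curve, and its class is standard:
`v 0 ≥ v 1 ≥ v 2 ≥ ⋯` and `v 0 + v 1 + v 2 ≤ d`. -/
structure StdNegative {r : ℕ} (P : Fin (r + 10) → Fin 2 → ℂ) (C : MvPolynomial (Fin 3) ℂ) (d : ℕ)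
    (v : Fin (r + 10) → ℕ) : Prop where
  curve : Curve P C d v
  negative : inter d v d v < 0
  ne : ¬ MinusOne P C d v
  antitone : Antitone v
  standard : v 0 + v 1 + v 2 ≤ d

theorem result :
    ∃ Z : (r : ℕ) → ℕ → MvPolynomial (Fin (r + 10) × Fin 2) ℂ, (∀ r n, Z r n ≠ 0) ∧
      -- the standard form
      (∀ (r : ℕ) (P : Fin (r + 10) → Fin 2 → ℂ), VG Z P →
        ∀ (d : ℕ) (w : Fin (r + 10) → ℕ) (C : MvPolynomial (Fin 3) ℂ),
          Curve P C d w → inter d w d w < 0 → ¬ MinusOne P C d w →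
          ∃ (P1 : Fin (r + 10) → Fin 2 → ℂ) (d1 : ℕ) (v : Fin (r + 10) → ℕ)
            (C1 : MvPolynomial (Fin 3) ℂ) (σ : Equiv.Perm (Fin (r + 10))),
            VG Z P1 ∧ StdNegative P1 C1 d1 v ∧
            Relation.ReflTransGen Quadratic (d, w) (d1, fun i => v (σ i)) ∧
            d1 ≤ d ∧ (∀ i, v (σ i) ≤ w i) ∧
            inter d1 v d1 v = inter d w d w ∧ interK d1 v = interK d w) ∧
      -- the numbers of the standard form
      (∀ (r : ℕ) (P : Fin (r + 10) → Fin 2 → ℂ), VG Z P →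
        ∀ (d : ℕ) (v : Fin (r + 10) → ℕ) (C : MvPolynomial (Fin 3) ℂ), StdNegative P C d v →
          0 < interK d v ∧
          (1 ≤ xx d v ∧ 2 * (v 8 : ℤ) * xx d v ≤ DD d v ∧
            DD d v ≤ 2 * (v 8 : ℤ) * xx d v + xx d v ^ 2 ∧
            DD d v < tl v (fun m => (m : ℤ) ^ 2) ∧
            tl v (fun m => if m = 0 then 0 else if m = 1 then 2 else 6) ≤ DD d v + xx d v ∧
            tl v (fun m => (m : ℤ) - 2 * ((m - 2 : ℕ) : ℤ)) < xx d v) ∧
          (d < 2 ^ 19 * (v 9 + 1) ^ 2 ∨ d < 2 ^ 40 * (v 9 + 1) ∨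
            (d < v 0 + 2 ^ 16 * (v 9 + 1) ∧ d < 2 ^ 61 * (v 9 + 1) ^ 3) ∨ NearU d v) ∧
          (max (v 0) (v 1 + v 2 + v 7) + 2 ^ 16 * (v 9 + 1) ≤ d →
            tl v (fun m => (m : ℤ)) + interK d v - inter d v d v <
              2 ^ 32 * ((v 9 : ℤ) + 1) ^ 2 + 2)) ∧
      -- finiteness
      (∀ μ : ℕ, {y : ℕ × Multiset ℕ | ∃ (r : ℕ) (P : Fin (r + 10) → Fin 2 → ℂ)
        (v : Fin (r + 10) → ℕ) (C : MvPolynomial (Fin 3) ℂ), VG Z P ∧ StdNegative P C y.1 v ∧
          v 9 ≤ μ ∧ ¬ NearU y.1 v ∧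
          y.2 = ((Finset.univ : Finset (Fin (r + 10))).val.map v).filter (fun a => a ≠ 0)}.Finite) ∧
      -- finiteness for a fixed number of points
      (∀ r μ : ℕ, {y : ℕ × (Fin (r + 10) → ℕ) | ∃ (P : Fin (r + 10) → Fin 2 → ℂ)
        (C : MvPolynomial (Fin 3) ℂ), VG Z P ∧ StdNegative P C y.1 y.2 ∧ y.2 9 ≤ μ}.Finite) := by
  choose Z hZ h using fun r : ℕ => Pool.Agent.TH167.SH.exists_fam (Fin (r + 10) × Fin 2)
  have hnum : ∀ (r : ℕ) (P : Fin (r + 10) → Fin 2 → ℂ), VG Z P →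
        ∀ (d : ℕ) (v : Fin (r + 10) → ℕ) (C : MvPolynomial (Fin 3) ℂ), StdNegative P C d v →
          0 < interK d v ∧
          (1 ≤ xx d v ∧ 2 * (v 8 : ℤ) * xx d v ≤ DD d v ∧
            DD d v ≤ 2 * (v 8 : ℤ) * xx d v + xx d v ^ 2 ∧
            DD d v < tl v (fun m => (m : ℤ) ^ 2) ∧
            tl v (fun m => if m = 0 then 0 else if m = 1 then 2 else 6) ≤ DD d v + xx d v ∧
            tl v (fun m => (m : ℤ) - 2 * ((m - 2 : ℕ) : ℤ)) < xx d v) ∧
          (d < 2 ^ 19 * (v 9 + 1) ^ 2 ∨ d < 2 ^ 40 * (v 9 + 1) ∨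
            (d < v 0 + 2 ^ 16 * (v 9 + 1) ∧ d < 2 ^ 61 * (v 9 + 1) ^ 3) ∨ NearU d v) ∧
          (max (v 0) (v 1 + v 2 + v 7) + 2 ^ 16 * (v 9 + 1) ≤ d →
            tl v (fun m => (m : ℤ)) + interK d v - inter d v d v <
              2 ^ 32 * ((v 9 : ℤ) + 1) ^ 2 + 2) := by
    intro r P hP d v C hC
    obtain ⟨h1, h2, h3⟩ := Pool.Agent.TH167.SH.curve_iff.1 hC.curve
    obtain ⟨c1, c2, c3, c4⟩ := std_curveU hC.antitone hC.standard ((h r _).1 hP) h1 h2 h3
      hC.negative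
    rw [Pool.Agent.TH167.SH.interK_eq, Pool.Agent.TH167.SH.inter_eq]
    exact ⟨by omega, c2, c3, fun hge => by have := c4 hge; linarith⟩
  refine ⟨Z, hZ, fun r P hP d w C hC hneg hne => ?_, hnum, fun μ => ?_, fun r μ => ?_⟩
  · obtain ⟨P1, d1, v, C1, σ, a1, a2, a3, a4, a5, a6, a7, a8, a9, a10⟩ :=
      exists_std ((h r _).1 hP) hC hne
    exact ⟨P1, d1, v, C1, σ, (h r _).2 a1, ⟨a2, by rw [a8]; exact hneg, a10, a4, a5⟩, a3, a6, a7,
      a8, a9⟩
  · obtain ⟨B, hB⟩ : ∃ B, B = 2 ^ 61 * (μ + 1) ^ 3 := ⟨_, rfl⟩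
    refine Set.Finite.subset ((Set.finite_Iic B).prod (multi_finite (9 + (B ^ 2 + 3 * B)) B)) ?_
    rintro ⟨d, M⟩ ⟨r, P, v, C, hP, hC, h9, hnear, hM⟩
    dsimp only at hC hnear hM
    obtain ⟨-, c2, c3, -⟩ := hnum r P hP d v C hC
    have hμ1 : 1 ≤ μ + 1 := Nat.le_add_left _ _
    have hm9 : v 9 + 1 ≤ μ + 1 := Nat.add_le_add_right h9 1
    have p2 : (v 9 + 1) ^ 2 ≤ (μ + 1) ^ 3 :=
      (Nat.pow_le_pow_left hm9 2).trans (Nat.pow_le_pow_right hμ1 (by norm_num))
    have p3 : (v 9 + 1) ^ 3 ≤ (μ + 1) ^ 3 := Nat.pow_le_pow_left hm9 3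
    have p1 : v 9 + 1 ≤ (μ + 1) ^ 3 := hm9.trans (Nat.le_self_pow (by norm_num) _)
    have hd : d ≤ B := by
      rcases c3 with c3 | c3 | ⟨-, c3⟩ | c3
      · rw [hB]
        exact c3.le.trans (Nat.mul_le_mul (by norm_num) p2)
      · rw [hB]
        exact c3.le.trans (Nat.mul_le_mul (by norm_num) p1)
      · rw [hB]
        exact c3.le.trans (Nat.mul_le_mul_left _ p3)
      · exact absurd c3 hnear
    have hcard := card_bound c2.2.2.2.2.1
    refine ⟨hd, ?_, ?_⟩
    · show Multiset.card M ≤ _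
      rw [hM, Multiset.filter_map, Multiset.card_map]
      have e1 : Multiset.card (Multiset.filter ((fun a => a ≠ 0) ∘ v)
          (Finset.univ : Finset (Fin (r + 10))).val) =
          (Finset.univ.filter fun i => v i ≠ 0).card := rfl
      rw [e1]
      refine hcard.trans (Nat.add_le_add_left (Nat.add_le_add (Nat.pow_le_pow_left hd 2)
        (Nat.mul_le_mul_left 3 hd)) 9)
    · show ∀ a ∈ M, a ≤ B
      intro a ha
      rw [hM, Multiset.mem_filter, Multiset.mem_map] at ha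
      obtain ⟨⟨i, -, rfl⟩, -⟩ := ha
      have h1 : v i ≤ v 0 := hC.antitone (Fin.zero_le i)
      have h2 := hC.standard
      omega
  · obtain ⟨B, hB⟩ : ∃ B, B = 2 ^ 61 * (μ + 1) ^ 3 + 3 * μ ^ 2 * (r + 10) + 2 ^ 31 * (μ + 1) ^ 2 :=
      ⟨_, rfl⟩
    refine Set.Finite.subset ((Set.finite_Iic B).prod
      (Set.finite_Iic (fun _ : Fin (r + 10) => B))) ?_
    rintro ⟨d, v⟩ ⟨P, C, hP, hC, h9⟩
    dsimp only at hC h9
    obtain ⟨-, c2, c3, -⟩ := hnum r P hP d v C hC
    have hμ1 : 1 ≤ μ + 1 := Nat.le_add_left _ _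
    have hm9 : v 9 + 1 ≤ μ + 1 := Nat.add_le_add_right h9 1
    have p2 : (v 9 + 1) ^ 2 ≤ (μ + 1) ^ 3 :=
      (Nat.pow_le_pow_left hm9 2).trans (Nat.pow_le_pow_right hμ1 (by norm_num))
    have p3 : (v 9 + 1) ^ 3 ≤ (μ + 1) ^ 3 := Nat.pow_le_pow_left hm9 3
    have p1 : v 9 + 1 ≤ (μ + 1) ^ 3 := hm9.trans (Nat.le_self_pow (by norm_num) _)
    have hd : d ≤ B := by
      rcases c3 with c3 | c3 | ⟨-, c3⟩ | c3
      · rw [hB]
        exact (c3.le.trans (Nat.mul_le_mul (by norm_num) p2)).trans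
          ((Nat.le_add_right _ _).trans (Nat.le_add_right _ _))
      · rw [hB]
        exact (c3.le.trans (Nat.mul_le_mul (by norm_num) p1)).trans
          ((Nat.le_add_right _ _).trans (Nat.le_add_right _ _))
      · rw [hB]
        exact (c3.le.trans (Nat.mul_le_mul_left _ p3)).trans
          ((Nat.le_add_right _ _).trans (Nat.le_add_right _ _))
      · obtain ⟨n1, -, n3, n4, n5⟩ := c3
        have e1 : tlCard v ≤ r + 10 := by
          unfold tlCard
          exact (Finset.card_le_univ _).trans (by simp)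
        have e2 : 2 * v 8 < (v 9) ^ 2 * tlCard v := by
          have h1 : 2 * (v 8 : ℤ) * 1 ≤ 2 * (v 8 : ℤ) * xx d v :=
            mul_le_mul_of_nonneg_left n1 (by positivity)
          have h2 : 2 * (v 8 : ℤ) < (v 9 : ℤ) ^ 2 * tlCard v := by linarith
          exact_mod_cast h2
        have e3 : (v 9) ^ 2 * tlCard v ≤ μ ^ 2 * (r + 10) :=
          Nat.mul_le_mul (Nat.pow_le_pow_left h9 2) e1
        have e4 : (v 9 + 1) ^ 2 ≤ (μ + 1) ^ 2 := Nat.pow_le_pow_left hm9 2
        have e5 : v 9 + 1 ≤ (μ + 1) ^ 2 := hm9.trans (Nat.le_self_pow (by norm_num) _)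
        have e6 : v 1 ≤ v 0 := hC.antitone (Fin.zero_le _)
        have e7 : v 2 ≤ v 0 := hC.antitone (Fin.zero_le _)
        have e8 : v 7 ≤ v 0 := hC.antitone (Fin.zero_le _)
        have e9 : 0 ≤ 2 ^ 61 * (μ + 1) ^ 3 := Nat.zero_le _
        rw [hB, show 3 * μ ^ 2 * (r + 10) = 3 * (μ ^ 2 * (r + 10)) by ring]
        omega
    refine ⟨hd, fun i => ?_⟩
    show v i ≤ B
    have h1 : v i ≤ v 0 := hC.antitone (Fin.zero_le i)
    have h2 := hC.standard
    omega

end Pool.Agent.Results.MP_d3e5c7_ag.TenthMultiplicity
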